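import Pool.Agent.N449.SQ.Sym

/-!
# Irreducibility of `k ^ 2 X ^ (2 q) + c ^ 2`
-/

set_option autoImplicit false
set_option maxHeartbeats 1000000

namespace Pool.Agent.N449.SV

open Polynomial

/-- a real polynomial with positive leading coefficient which divides `A X ^ (2 q) + B`, `A ≥ 0`, `B > 0`,
has a positive constant coefficient -/
theorem pos_coeff (G : ℝ[X]) (hG : 0 < G.leadingCoeff) (A B : ℝ) (hA : 0 ≤ A) (hB : 0 < B) (q : ℕ)
    (hdvd : G ∣ C A * X ^ (2 * q) + C B) : 0 < G.coeff 0 := by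
  by_contra h
  push Not at h
  rcases Nat.eq_zero_or_pos G.natDegree with h0 | h0
  · rw [leadingCoeff, h0] at hG
    linarith
  have h1 := Polynomial.tendsto_atTop_of_leadingCoeff_nonneg G (natDegree_pos_iff_degree_pos.1 h0)
    hG.le
  obtain ⟨x, hx⟩ := (h1.eventually (Filter.eventually_ge_atTop 0)).exists
  obtain ⟨z, hz⟩ := mem_range_of_exists_le_of_exists_ge (c := 0) G.continuous
    ⟨0, by rw [← coeff_zero_eq_eval_zero]; exact h⟩ ⟨x, hx⟩
  obtain ⟨Q, hQ⟩ := hdvd
  have h2 := congrArg (eval z) hQ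
  rw [eval_mul] at h2
  simp only [] at hz
  rw [hz, zero_mul] at h2
  simp at h2
  have : 0 ≤ A * z ^ (2 * q) := by rw [pow_mul]; positivity
  linarith

/-- the valuations of the leading coefficients of the factors -/
theorem lead_val (k c : ℕ) (l q : ℕ) (hl : l.Prime) (hlk : k.factorization l = 1) (hlc : ¬ l ∣ c)
    (hq : 0 < q) (G H : ℤ[X]) (hGH : G * H = C ((k : ℤ) ^ 2) * X ^ (2 * q) + C ((c : ℤ) ^ 2))
    (hGd : 0 < G.natDegree) (hHd : 0 < H.natDegree) :
    (l : ℤ) ∣ G.leadingCoeff ∧ G.natDegree = q ∧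
      (G.coeff 0).natAbs * k = G.leadingCoeff.natAbs * c := by
  have : Fact l.Prime := ⟨hl⟩
  have hk0 : k ≠ 0 := by
    rintro rfl
    simp at hlk
  have hc0 : c ≠ 0 := by
    rintro rfl
    exact hlc (dvd_zero _)
  have hdeg : G.natDegree + H.natDegree = 2 * q := by
    have h1 : G ≠ 0 := by rintro rfl; simp at hGd
    have h2 : H ≠ 0 := by rintro rfl; simp at hHd
    rw [← natDegree_mul h1 h2, hGH]
    exact natDegree_add_C.trans (natDegree_C_mul_X_pow _ _ (by positivity))
  have hG0 : G ≠ 0 := by rintro rfl; simp at hGd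
  have hprod0 : G.coeff 0 * H.coeff 0 = (c : ℤ) ^ 2 := by
    have := congrArg (fun P => P.coeff 0) hGH
    simp only [mul_coeff_zero, coeff_add, coeff_C_zero, coeff_X_pow] at this
    rw [if_neg (by omega)] at this
    simpa using this
  -- root moduli
  let f : ℤ →+* ℂ := Int.castRingHom ℂ
  have hfinj : Function.Injective f := Int.cast_injective
  have hr := Pool.Agent.N449.SQ.root_prod (f ((k : ℤ) ^ 2)) (f ((c : ℤ) ^ 2))
    (by simp [f, hk0]) (by simp [f, hc0]) (2 * q) (by omega) (G.map f) (by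
      refine ⟨H.map f, ?_⟩
      rw [← Polynomial.map_mul, hGH]
      simp)
  rw [coeff_map, leadingCoeff_map_of_injective hfinj, natDegree_map_eq_of_injective hfinj] at hr
  have e1 : ∀ z : ℤ, ‖f z‖ = |(z : ℝ)| := fun z => by simp [f]
  rw [e1, e1, e1, e1] at hr
  have hr2 : |G.coeff 0| ^ (2 * q) * ((k : ℤ) ^ 2) ^ G.natDegree
      = |G.leadingCoeff| ^ (2 * q) * ((c : ℤ) ^ 2) ^ G.natDegree := by
    have : ((|G.coeff 0| ^ (2 * q) * ((k : ℤ) ^ 2) ^ G.natDegree : ℤ) : ℝ)
      = ((|G.leadingCoeff| ^ (2 * q) * ((c : ℤ) ^ 2) ^ G.natDegree : ℤ) : ℝ) := by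
      push_cast at hr ⊢
      rw [abs_of_nonneg (by positivity : (0 : ℝ) ≤ (k : ℝ) ^ 2),
        abs_of_nonneg (by positivity : (0 : ℝ) ≤ (c : ℝ) ^ 2)] at hr
      exact hr
    exact_mod_cast this
  have hG00 : G.coeff 0 ≠ 0 := by
    intro h0
    rw [h0, zero_mul] at hprod0
    have : (c : ℤ) ^ 2 ≠ 0 := by positivity
    exact this hprod0.symm
  have hlead : G.leadingCoeff ≠ 0 := leadingCoeff_ne_zero.2 hG0
  -- naturals
  have hr3 : (G.coeff 0).natAbs ^ (2 * q) * (k ^ 2) ^ G.natDegree
      = G.leadingCoeff.natAbs ^ (2 * q) * (c ^ 2) ^ G.natDegree := by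
    have h1 := congrArg Int.natAbs hr2
    simpa [Int.natAbs_mul, Int.natAbs_pow, Int.natAbs_abs] using h1
  have hA0 : (G.coeff 0).natAbs ≠ 0 := Int.natAbs_ne_zero.2 hG00
  have hL0 : G.leadingCoeff.natAbs ≠ 0 := Int.natAbs_ne_zero.2 hlead
  have hcl : c.factorization l = 0 := Nat.factorization_eq_zero_of_not_dvd hlc
  have hAl : (G.coeff 0).natAbs.factorization l = 0 := by
    apply Nat.factorization_eq_zero_of_not_dvd
    intro hd
    have h1 : (l : ℤ) ∣ (c : ℤ) ^ 2 := by
      rw [← hprod0]
      exact Dvd.dvd.mul_right (Int.natCast_dvd.2 hd) _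
    have h2 : l ∣ c ^ 2 := by exact_mod_cast h1
    exact hlc (hl.dvd_of_dvd_pow h2)
  have h4 := congrArg (fun n => n.factorization l) hr3
  rw [Nat.factorization_mul (pow_ne_zero _ hA0) (pow_ne_zero _ (pow_ne_zero _ hk0)),
    Nat.factorization_mul (pow_ne_zero _ hL0) (pow_ne_zero _ (pow_ne_zero _ hc0))] at h4
  simp only [Nat.factorization_pow, Finsupp.add_apply, Finsupp.smul_apply, smul_eq_mul, hAl, hlk, hcl] at h4
  -- `2 * deg = 2 * q * v`
  have h5 : G.natDegree = q * G.leadingCoeff.natAbs.factorization l := by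
    have : G.natDegree * (2 * 1) = 2 * q * G.leadingCoeff.natAbs.factorization l := by
      simpa using h4
    nlinarith
  have h6 : G.leadingCoeff.natAbs.factorization l = 1 := by
    have h7 : G.natDegree < 2 * q := by omega
    rw [h5] at h7 hGd
    have h8 : G.leadingCoeff.natAbs.factorization l < 2 := by
      by_contra hcc
      push Not at hcc
      nlinarith
    have h9 : G.leadingCoeff.natAbs.factorization l ≠ 0 := by
      intro h0
      rw [h0] at hGd
      simp at hGd
    omega
  have h7 : G.natDegree = q := by rw [h5, h6, mul_one]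
  refine ⟨?_, h7, ?_⟩
  · rw [Int.natCast_dvd]
    exact (hl.dvd_iff_one_le_factorization hL0).2 h6.ge
  · have h8 : ((G.coeff 0).natAbs * k) ^ (2 * q) = (G.leadingCoeff.natAbs * c) ^ (2 * q) := by
      rw [mul_pow, mul_pow, pow_mul k, pow_mul c]
      rw [h7] at hr3
      exact hr3
    exact Nat.pow_left_injective (by omega) h8

theorem irr (k c l q : ℕ) (hl : l.Prime) (hl2 : l ≠ 2) (hlk : k.factorization l = 1)
    (hcop : Nat.Coprime k c) (hq : 0 < q) :
    Irreducible (C ((k : ℤ) ^ 2) * X ^ (2 * q) + C ((c : ℤ) ^ 2) : ℤ[X]) := by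
  have : Fact l.Prime := ⟨hl⟩
  have hk0 : k ≠ 0 := by
    rintro rfl
    simp at hlk
  have hlk' : l ∣ k := (hl.dvd_iff_one_le_factorization hk0).2 hlk.ge
  have hlc : ¬ l ∣ c := fun h => hl.one_lt.ne' (Nat.Coprime.eq_one_of_dvd (hcop.coprime_dvd_left hlk') h)
  have hc0 : c ≠ 0 := by
    rintro rfl
    exact hlc (dvd_zero _)
  set N : ℤ[X] := C ((k : ℤ) ^ 2) * X ^ (2 * q) + C ((c : ℤ) ^ 2) with hN
  have hNd : N.natDegree = 2 * q := natDegree_add_C.trans (natDegree_C_mul_X_pow _ _ (by positivity))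
  have hco : ∀ m, N.coeff m = (if m = 2 * q then (k : ℤ) ^ 2 else 0) + (if m = 0 then (c : ℤ) ^ 2 else 0) := by
    intro m
    rw [hN, coeff_add, coeff_C_mul_X_pow, coeff_C]
  have hunit : ∀ G H : ℤ[X], G * H = N → G.natDegree = 0 → IsUnit G := by
    intro G H hGH hG
    obtain ⟨g, hg⟩ : ∃ g, G = C g := ⟨_, eq_C_of_natDegree_eq_zero hG⟩
    rw [hg] at hGH ⊢
    have h1 : g ∣ (k : ℤ) ^ 2 := by
      have := hco (2 * q)
      rw [if_pos rfl, if_neg (by omega), add_zero, ← hGH, coeff_C_mul] at this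
      exact ⟨_, this.symm⟩
    have h2 : g ∣ (c : ℤ) ^ 2 := by
      have := hco 0
      rw [if_pos rfl, if_neg (by omega), zero_add, ← hGH, coeff_C_mul] at this
      exact ⟨_, this.symm⟩
    have h3 : IsCoprime ((k : ℤ) ^ 2) ((c : ℤ) ^ 2) := (Nat.isCoprime_iff_coprime.2 hcop).pow
    exact (h3.isUnit_of_dvd' h1 h2).map C
  -- no factorization with positive leading coefficients
  have key : ∀ G H : ℤ[X], G * H = N → 0 < G.natDegree → 0 < H.natDegree → 0 < G.leadingCoeff →
      0 < H.leadingCoeff → False := by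
    intro G H hGH hGd hHd hGl hHl
    obtain ⟨hG1, hG2, hG3⟩ := lead_val k c l q hl hlk hlc hq G H hGH hGd hHd
    obtain ⟨hH1, hH2, hH3⟩ := lead_val k c l q hl hlk hlc hq H G (by rw [mul_comm, hGH]) hHd hGd
    have hpos : ∀ G H : ℤ[X], G * H = N → 0 < G.leadingCoeff → 0 < G.coeff 0 := by
      intro G H hGH hGl
      have hinj : Function.Injective (Int.castRingHom ℝ) := Int.cast_injective
      have := pos_coeff (G.map (Int.castRingHom ℝ)) (by
        rw [leadingCoeff_map_of_injective hinj]
        show (0 : ℝ) < ((G.leadingCoeff : ℤ) : ℝ)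
        exact_mod_cast hGl) ((k : ℝ) ^ 2) ((c : ℝ) ^ 2) (by positivity) (by positivity) q (by
          refine ⟨H.map (Int.castRingHom ℝ), ?_⟩
          rw [← Polynomial.map_mul, hGH, hN]
          simp)
      rw [coeff_map] at this
      have h2 : (0 : ℝ) < ((G.coeff 0 : ℤ) : ℝ) := this
      exact_mod_cast h2
    have hG0 := hpos G H hGH hGl
    have hH0 := hpos H G (by rw [mul_comm, hGH]) hHl
    have e1 : G.coeff 0 * k = G.leadingCoeff * c := by
      have : ((G.coeff 0).natAbs : ℤ) * k = (G.leadingCoeff.natAbs : ℤ) * c := by exact_mod_cast hG3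
      rwa [Int.natCast_natAbs, Int.natCast_natAbs, abs_of_pos hG0, abs_of_pos hGl] at this
    have e2 : H.coeff 0 * k = H.leadingCoeff * c := by
      have : ((H.coeff 0).natAbs : ℤ) * k = (H.leadingCoeff.natAbs : ℤ) * c := by exact_mod_cast hH3
      rwa [Int.natCast_natAbs, Int.natCast_natAbs, abs_of_pos hH0, abs_of_pos hHl] at this
    have e3 : G.leadingCoeff * H.leadingCoeff = (k : ℤ) ^ 2 := by
      rw [← leadingCoeff_mul, hGH, leadingCoeff, hNd, hco, if_pos rfl, if_neg (by omega), add_zero]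
    have hkZ : (k : ℤ) ≠ 0 := by exact_mod_cast hk0
    have e4 : G.coeff 0 * H.leadingCoeff + G.leadingCoeff * H.coeff 0 = 2 * c * k := by
      apply mul_right_cancel₀ hkZ
      linear_combination H.leadingCoeff * e1 + G.leadingCoeff * e2 + 2 * c * e3
    -- modulo `l`
    have hmod : ∀ G H : ℤ[X], G * H = N → ∀ m, m ≠ 0 → (l : ℤ) ∣ G.coeff m := by
      intro G H hGH m hm
      have h1 : (G.map (Int.castRingHom (ZMod l))) * (H.map (Int.castRingHom (ZMod l)))
          = C ((c : ZMod l) ^ 2) := by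
        rw [← Polynomial.map_mul, hGH, hN]
        have h0 : ((k : ZMod l)) = 0 := (ZMod.natCast_eq_zero_iff _ _).2 hlk'
        have h0' : ((k : (ZMod l)[X])) = 0 := by rw [← Polynomial.C_eq_natCast, h0, C_0]
        simp [h0']
      have hcl : ((c : ZMod l) ^ 2) ≠ 0 := by
        apply pow_ne_zero
        intro h
        exact hlc ((ZMod.natCast_eq_zero_iff _ _).1 h)
      have h2 : IsUnit (G.map (Int.castRingHom (ZMod l))) := by
        have : IsUnit (C ((c : ZMod l) ^ 2)) := isUnit_C.2 (IsUnit.mk0 _ hcl)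
        rw [← h1] at this
        exact isUnit_of_mul_isUnit_left this
      have h3 := natDegree_eq_zero_of_isUnit h2
      have h4 : (G.map (Int.castRingHom (ZMod l))).coeff m = 0 :=
        coeff_eq_zero_of_natDegree_lt (by omega)
      rw [coeff_map] at h4
      exact (ZMod.intCast_zmod_eq_zero_iff_dvd _ _).1 h4
    have h5 : (G * H).coeff q = 0 := by
      rw [hGH, hco, if_neg (by omega), if_neg (by omega), add_zero]
    rw [coeff_mul] at h5
    have h6 : ((l : ℤ) ^ 2) ∣ G.coeff 0 * H.coeff q + G.coeff q * H.coeff 0 := by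
      have hsub : ({(0, q), (q, 0)} : Finset (ℕ × ℕ)) ⊆ Finset.HasAntidiagonal.antidiagonal q := by
        intro x hx
        simp only [Finset.mem_insert, Finset.mem_singleton] at hx
        rcases hx with rfl | rfl <;> simp
      rw [← Finset.sum_sdiff hsub, Finset.sum_pair (by
        intro h
        have := congrArg Prod.fst h
        simp at this
        omega)] at h5
      have h7 : ((l : ℤ) ^ 2) ∣ ∑ x ∈ Finset.HasAntidiagonal.antidiagonal q \ {(0, q), (q, 0)},
          G.coeff x.1 * H.coeff x.2 := by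
        apply Finset.dvd_sum
        intro x hx
        rw [Finset.mem_sdiff, Finset.HasAntidiagonal.mem_antidiagonal] at hx
        obtain ⟨hx1, hx2⟩ := hx
        have hx3 : x.1 ≠ 0 := by
          intro h0
          apply hx2
          simp only [Finset.mem_insert, Finset.mem_singleton]
          left
          ext
          · exact h0
          · simp; omega
        have hx4 : x.2 ≠ 0 := by
          intro h0
          apply hx2
          simp only [Finset.mem_insert, Finset.mem_singleton]
          right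
          ext
          · simp; omega
          · exact h0
        rw [pow_two]
        exact mul_dvd_mul (hmod G H hGH _ hx3) (hmod H G (by rw [mul_comm, hGH]) _ hx4)
      rw [dvd_add_right h7 |>.symm, h5]
      exact dvd_zero _
    rw [leadingCoeff, leadingCoeff, hG2, hH2] at e4
    rw [e4] at h6
    have h7 : l ^ 2 ∣ 2 * c * k := by exact_mod_cast h6
    have h8 : (2 * c * k).factorization l = 1 := by
      rw [Nat.factorization_mul (by positivity) hk0, Nat.factorization_mul (by norm_num) hc0]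
      simp only [Finsupp.add_apply, hlk, Nat.factorization_eq_zero_of_not_dvd hlc]
      rw [Nat.factorization_eq_zero_of_not_dvd]
      intro h
      exact hl2 ((Nat.prime_dvd_prime_iff_eq hl Nat.prime_two).1 h)
    have h9 := (hl.pow_dvd_iff_le_factorization (by positivity)).1 h7
    omega
  rw [irreducible_iff]
  refine ⟨?_, ?_⟩
  · intro h
    have := natDegree_eq_zero_of_isUnit h
    omega
  · intro G H hGH
    by_contra hcon
    push Not at hcon
    obtain ⟨h1, h2⟩ := hcon
    have hGd : 0 < G.natDegree := by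
      by_contra h
      exact h1 (hunit G H hGH.symm (by omega))
    have hHd : 0 < H.natDegree := by
      by_contra h
      exact h2 (hunit H G (by rw [mul_comm]; exact hGH.symm) (by omega))
    have e3 : G.leadingCoeff * H.leadingCoeff = (k : ℤ) ^ 2 := by
      rw [← leadingCoeff_mul, ← hGH, leadingCoeff, hNd, hco, if_pos rfl, if_neg (by omega), add_zero]
    have e4 : 0 < G.leadingCoeff * H.leadingCoeff := by
      rw [e3]; positivity
    rcases pos_and_pos_or_neg_and_neg_of_mul_pos e4 with h | h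
    · exact key G H hGH.symm hGd hHd h.1 h.2
    · refine key (-G) (-H) ?_ ?_ ?_ ?_ ?_
      · rw [neg_mul_neg, hGH]
      · rwa [natDegree_neg]
      · rwa [natDegree_neg]
      · rw [leadingCoeff_neg]; linarith [h.1]
      · rw [leadingCoeff_neg]; linarith [h.2]

end Pool.Agent.N449.SV
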