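import Pool.Agent.N449.SK.Main
import Pool.Agent.N449.SV.Irr

/-!
# Sparse factors of `F (b ^ n)` if `F (b ^ n X ^ q)` is irreducible for all `q`
-/

set_option autoImplicit false
set_option maxHeartbeats 1000000

namespace Pool.Agent.N449.SV

open Finset Polynomial Pool.Agent.N449.SK

theorem final_irr (b n : ℕ) (hb : 2 ≤ b) (hn : 0 < n) (F : ℤ[X]) (hprim : F.IsPrimitive)
    (hcop : IsCoprime (b : ℤ) (F.coeff 0))
    (hirr : ∀ q, 0 < q → Irreducible ((F.map (Int.castRingHom ℚ)).comp (C ((b : ℚ) ^ n) * X ^ q)))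
    (d e : ℤ) (h : d * e = F.eval ((b : ℤ) ^ n)) (hd : 1 < |d|) (he : 1 < |e|)
    (S T : Finset ℕ) (u v : ℕ → ℤ) (hS : d = ∑ i ∈ S, u i * (b : ℤ) ^ i)
    (hT : e = ∑ j ∈ T, v j * (b : ℤ) ^ j) :
    (b : ℤ) ^ n ≤ (b + (∑ i ∈ range (F.natDegree + 1), |F.coeff i|) +
      (∑ i ∈ S, |u i|) * (∑ j ∈ T, |v j|)) ^ (4 * T.card * (8 * T.card) ^ (S.card - 1)) := by
  by_contra hcon
  push Not at hcon
  obtain ⟨q, hq, hqn, D, E, hDE, hD⟩ := main b hb n hn F hcop d e h S T u v hS hT hcon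
  have hinj : Function.Injective (Int.castRingHom ℚ) := Int.cast_injective
  have hb0 : (b : ℤ) ≠ 0 := by exact_mod_cast (by omega : b ≠ 0)
  have hirr := hirr q hq
  have hmap : (D.map (Int.castRingHom ℚ)) * (E.map (Int.castRingHom ℚ))
      = (F.map (Int.castRingHom ℚ)).comp (C ((b : ℚ) ^ n) * X ^ q) := by
    rw [← Polynomial.map_mul, hDE, Polynomial.map_comp]
    simp
  rw [← hmap] at hirr
  -- the coefficients
  have hcoef : ∀ m, (D * E).coeff (q * m) = F.coeff m * (b : ℤ) ^ (n * m) := by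
    intro m
    have hcomp : F.comp (C ((b : ℤ) ^ n) * X ^ q)
        = ∑ m ∈ range (F.natDegree + 1), C (F.coeff m * (b : ℤ) ^ (n * m)) * X ^ (q * m) := by
      rw [comp, eval₂_eq_sum_range]
      refine Finset.sum_congr rfl fun m _ => ?_
      rw [mul_pow, ← C_pow, ← pow_mul, ← pow_mul, C_mul, mul_assoc]
    rw [hDE, hcomp, finsetSum_coeff]
    simp only [coeff_C_mul_X_pow]
    rw [Finset.sum_eq_single m]
    · rw [if_pos rfl]
    · intro m' _ hm'
      rw [if_neg]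
      intro h1
      exact hm' (Nat.eq_of_mul_eq_mul_left hq h1).symm
    · intro hm
      rw [if_pos rfl]
      have : F.natDegree < m := by
        rw [Finset.mem_range] at hm
        omega
      rw [coeff_eq_zero_of_natDegree_lt this, zero_mul]
  have key : ∀ G H : ℤ[X], G * H = D * E → IsUnit (G.map (Int.castRingHom ℚ)) →
      |G.eval 1| = 1 := by
    intro G H hGH hG
    have hdeg := natDegree_eq_zero_of_isUnit hG
    rw [natDegree_map_eq_of_injective hinj] at hdeg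
    obtain ⟨c, hc⟩ : ∃ c, G = C c := ⟨_, eq_C_of_natDegree_eq_zero hdeg⟩
    rw [hc] at hGH ⊢
    have g1 : ∀ m, c ∣ F.coeff m * (b : ℤ) ^ (n * m) := by
      intro m
      rw [← hcoef, ← hGH, coeff_C_mul]
      exact dvd_mul_right _ _
    have g2 : IsCoprime c (b : ℤ) := by
      have h0 := g1 0
      rw [Nat.mul_zero, pow_zero, mul_one] at h0
      exact (hcop.of_isCoprime_of_dvd_right h0).symm
    have g3 : C c ∣ F := by
      rw [C_dvd_iff_dvd_coeff]
      intro m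
      exact g2.pow_right.dvd_of_dvd_mul_right (g1 m)
    have g4 : IsUnit c := hprim c g3
    simpa using Int.isUnit_iff_abs_eq.1 g4
  have hne : (d : ℤ) ≠ 0 := by
    rintro rfl
    simp at hd
  have h1 : D.eval 1 * E.eval 1 = F.eval ((b : ℤ) ^ n) := by
    rw [← eval_mul, hDE, eval_comp]
    simp
  rcases hirr.isUnit_or_isUnit rfl with hu | hu
  · have h2 := key D E rfl hu
    rw [hD] at h2
    omega
  · have h2 := key E D (mul_comm _ _) hu
    rw [hD, ← h] at h1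
    have h4 : E.eval 1 = e := mul_left_cancel₀ hne h1
    rw [h4] at h2
    omega

/-- sums of two squares `k ^ 2 + c ^ 2`, `k = A b ^ m` divisible by an odd prime exactly once -/
theorem squares (b m A c l : ℕ) (hb : 2 ≤ b) (hm : 0 < m) (hl : l.Prime) (hl2 : l ≠ 2)
    (hlk : (A * b ^ m).factorization l = 1) (hcop : Nat.Coprime (A * b ^ m) c)
    (d e : ℤ) (h : d * e = ((A * b ^ m : ℕ) : ℤ) ^ 2 + (c : ℤ) ^ 2) (hd : 1 < |d|)
    (he : 1 < |e|) (S T : Finset ℕ) (u v : ℕ → ℤ) (hS : d = ∑ i ∈ S, u i * (b : ℤ) ^ i)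
    (hT : e = ∑ j ∈ T, v j * (b : ℤ) ^ j) :
    (b : ℤ) ^ m ≤ (b + (A : ℤ) ^ 2 + (c : ℤ) ^ 2 +
      (∑ i ∈ S, |u i|) * (∑ j ∈ T, |v j|)) ^ (4 * T.card * (8 * T.card) ^ (S.card - 1)) := by
  obtain ⟨F, hFdef⟩ : ∃ F : ℤ[X], F = C ((A : ℤ) ^ 2) * X ^ 2 + C 0 * X + C ((c : ℤ) ^ 2) := ⟨_, rfl⟩
  have hk0 : A * b ^ m ≠ 0 := by
    intro h0
    rw [h0] at hlk
    simp at hlk
  have hA0 : A ≠ 0 := fun h0 => hk0 (by rw [h0, zero_mul])
  have hlead : ((A : ℤ) ^ 2) ≠ 0 := by positivity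
  have hdeg : F.natDegree = 2 := by rw [hFdef]; exact natDegree_quadratic hlead
  have hc0 : F.coeff 0 = (c : ℤ) ^ 2 := by
    rw [hFdef, coeff_add, coeff_add, coeff_C_mul_X_pow, coeff_C_mul_X, coeff_C]
    norm_num
  have hc1 : F.coeff 1 = 0 := by
    rw [hFdef, coeff_add, coeff_add, coeff_C_mul_X_pow, coeff_C_mul_X, coeff_C]
    norm_num
  have hc2 : F.coeff 2 = (A : ℤ) ^ 2 := by
    rw [hFdef, coeff_add, coeff_add, coeff_C_mul_X_pow, coeff_C_mul_X, coeff_C]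
    norm_num
  have hAc : Nat.Coprime A c := hcop.coprime_mul_right
  have hbc : Nat.Coprime b c := by
    have : Nat.Coprime (b ^ m) c := hcop.coprime_mul_left
    exact (Nat.coprime_pow_left_iff hm _ _).1 this
  have hprim : F.IsPrimitive := by
    intro r hr
    have h0 := (C_dvd_iff_dvd_coeff r F).1 hr 0
    have h2 := (C_dvd_iff_dvd_coeff r F).1 hr 2
    rw [hc0] at h0
    rw [hc2] at h2
    have h3 : IsCoprime ((A : ℤ) ^ 2) ((c : ℤ) ^ 2) := (Nat.isCoprime_iff_coprime.2 hAc).pow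
    exact h3.isUnit_of_dvd' h2 h0
  have hmain := final_irr b m hb hm F hprim (by
      rw [hc0]
      exact (Nat.isCoprime_iff_coprime.2 hbc).pow_right) (by
      intro q hq
      have hir := irr (A * b ^ m) c l q hl hl2 hlk hcop hq
      have hnd : (C (((A * b ^ m : ℕ) : ℤ) ^ 2) * X ^ (2 * q) + C ((c : ℤ) ^ 2) : ℤ[X]).natDegree ≠ 0 := by
        rw [natDegree_add_C.trans (natDegree_C_mul_X_pow _ _ (by positivity))]
        omega
      have h5 := (IsPrimitive.Int.irreducible_iff_irreducible_map_cast (hir.isPrimitive hnd)).1 hir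
      convert h5 using 1
      rw [hFdef]
      simp
      ring) d e (by
      rw [h, hFdef]
      simp
      ring) hd he S T u v hS hT
  have hs : ∑ i ∈ range (F.natDegree + 1), |F.coeff i| = (A : ℤ) ^ 2 + (c : ℤ) ^ 2 := by
    rw [hdeg, Finset.sum_range_succ, Finset.sum_range_succ, Finset.sum_range_succ, Finset.sum_range_zero,
      hc0, hc1, hc2, abs_zero, abs_of_nonneg (by positivity : (0 : ℤ) ≤ (c : ℤ) ^ 2),
      abs_of_nonneg (by positivity : (0 : ℤ) ≤ (A : ℤ) ^ 2)]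
    ring
  rw [hs, ← add_assoc] at hmain
  exact hmain

/-- the family of Ankeny, Chowla and Hasse -/
theorem ach (p b m a n : ℕ) (hp : p.Prime) (hp2 : p ≠ 2) (hb : 2 ≤ b) (hm : 0 < m)
    (hpab : ¬ p ∣ a * b) (hn : n = a * b ^ m)
    (d e : ℤ) (h : d * e = (2 * (p : ℤ) * n) ^ 2 + 1) (hd : 1 < |d|)
    (he : 1 < |e|) (S T : Finset ℕ) (u v : ℕ → ℤ) (hS : d = ∑ i ∈ S, u i * (b : ℤ) ^ i)
    (hT : e = ∑ j ∈ T, v j * (b : ℤ) ^ j) :
    (b : ℤ) ^ m ≤ (b + (2 * (p : ℤ) * a) ^ 2 + 1 +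
      (∑ i ∈ S, |u i|) * (∑ j ∈ T, |v j|)) ^ (4 * T.card * (8 * T.card) ^ (S.card - 1)) := by
  have hpa : ¬ p ∣ a := fun h => hpab (Dvd.dvd.mul_right h _)
  have hpb : ¬ p ∣ b := fun h => hpab (Dvd.dvd.mul_left h _)
  have ha0 : a ≠ 0 := fun h0 => hpa (h0 ▸ dvd_zero _)
  have hb0 : b ≠ 0 := by omega
  have hpp : ¬ p ∣ 2 := fun h => hp2 ((Nat.prime_dvd_prime_iff_eq hp Nat.prime_two).1 h)
  have := squares b m (2 * p * a) 1 p hb hm hp hp2 (by
    rw [Nat.factorization_mul (mul_ne_zero (mul_ne_zero two_ne_zero hp.ne_zero) ha0) (pow_ne_zero _ hb0),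
      Nat.factorization_mul (mul_ne_zero two_ne_zero hp.ne_zero) ha0,
      Nat.factorization_mul two_ne_zero hp.ne_zero, Nat.factorization_pow]
    simp only [Finsupp.add_apply, Finsupp.smul_apply, smul_eq_mul,
      Nat.factorization_eq_zero_of_not_dvd hpa, Nat.factorization_eq_zero_of_not_dvd hpb,
      Nat.factorization_eq_zero_of_not_dvd hpp, hp.factorization_self]
    omega) (Nat.coprime_one_right _)
    d e (by rw [h, hn]; push_cast; ring) hd he S T u v hS hT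
  push_cast at this
  simpa using this

/-- the family of Lang -/
theorem lang (p b m a n : ℕ) (hp : p.Prime) (hp2 : p ≠ 2) (hb : 2 ≤ b) (hm : 0 < m)
    (hpab : ¬ p ∣ a * b) (hn : 2 * n + 1 = a * b ^ m)
    (d e : ℤ) (h : d * e = ((2 * (n : ℤ) + 1) * p) ^ 2 + 4) (hd : 1 < |d|)
    (he : 1 < |e|) (S T : Finset ℕ) (u v : ℕ → ℤ) (hS : d = ∑ i ∈ S, u i * (b : ℤ) ^ i)
    (hT : e = ∑ j ∈ T, v j * (b : ℤ) ^ j) :
    (b : ℤ) ^ m ≤ (b + ((p : ℤ) * a) ^ 2 + 4 +
      (∑ i ∈ S, |u i|) * (∑ j ∈ T, |v j|)) ^ (4 * T.card * (8 * T.card) ^ (S.card - 1)) := by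
  have hpa : ¬ p ∣ a := fun h => hpab (Dvd.dvd.mul_right h _)
  have hpb : ¬ p ∣ b := fun h => hpab (Dvd.dvd.mul_left h _)
  have ha0 : a ≠ 0 := fun h0 => hpa (h0 ▸ dvd_zero _)
  have hb0 : b ≠ 0 := by omega
  have hodd : Odd (a * b ^ m) := ⟨n, hn.symm⟩
  have hpodd : Odd p := hp.odd_of_ne_two hp2
  have := squares b m (p * a) 2 p hb hm hp hp2 (by
    rw [Nat.factorization_mul (mul_ne_zero hp.ne_zero ha0) (pow_ne_zero _ hb0),
      Nat.factorization_mul hp.ne_zero ha0, Nat.factorization_pow]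
    simp only [Finsupp.add_apply, Finsupp.smul_apply, smul_eq_mul,
      Nat.factorization_eq_zero_of_not_dvd hpa, Nat.factorization_eq_zero_of_not_dvd hpb,
      hp.factorization_self]
    omega) (by
    rw [mul_assoc]
    exact (Nat.coprime_two_left.2 (hpodd.mul hodd)).symm)
    d e (by
      have : (2 * (n : ℤ) + 1) = a * (b : ℤ) ^ m := by exact_mod_cast hn
      rw [h, this]; push_cast; ring) hd he S T u v hS hT
  push_cast at this
  exact this

end Pool.Agent.N449.SV
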